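import Mathlib
import Pool.Agent.Helper50.MB.Goals

/-!
# Packet MB-SURG (MP_fda85d)
-/

namespace Pool.Agent.Helper97.MB

open Pool.Agent.Helper50.MB

/-- Two points joined by both maps form a connected component. -/
lemma ne_succ {l h p : ℤ} {a r : ℤ → ℤ} (ha : ∀ z, a (a z) = z) (hr : ∀ z, r (r z) = z)
    (hl : l ≤ p) (hh : p + 1 < h) (h3 : l + 3 ≤ h) (hrp : r p = p + 1) (hC : CI l h a r) :
    a p ≠ p + 1 := by
  intro hap
  have ha' : a (p + 1) = p := by rw [← hap, ha]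
  have hr' : r (p + 1) = p := by rw [← hrp, hr]
  have key : ∀ y, Conn a r p y → y = p ∨ y = p + 1 := by
    intro y hy
    induction hy with
    | refl => exact Or.inl rfl
    | tail _ hst ih =>
      rcases ih with rfl | rfl <;> rcases hst with h1 | h1 <;> subst h1 <;> simp [*]
  by_cases hlp : l = p
  · have := key (p + 2) (hC p (p + 2) hl (by omega) (by omega) (by omega))
    omega
  · have := key l (hC p l hl (by omega) (by omega) (by omega))
    omega

lemma dn_up (p z : ℤ) : dn p (up p z) = z := by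
  unfold dn up; split_ifs <;> omega

lemma up_ne (p z : ℤ) : up p z ≠ p ∧ up p z ≠ p + 1 := by
  unfold up; split_ifs <;> constructor <;> omega

lemma up_dn {p z : ℤ} (h1 : z ≠ p) (h2 : z ≠ p + 1) : up p (dn p z) = z := by
  unfold dn up; split_ifs <;> omega

lemma dn_range {l h p z : ℤ} (hl : l ≤ p) (hh : p + 1 < h) (h1 : z ≠ p) (h2 : z ≠ p + 1)
    (hz1 : l ≤ z) (hz2 : z < h) : l ≤ dn p z ∧ dn p z < h - 2 := by
  unfold dn; split_ifs <;> constructor <;> omega

lemma up_range {l h p z : ℤ} (hl : l ≤ p) (hh : p + 1 < h)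
    (hz1 : l ≤ z) (hz2 : z < h - 2) : l ≤ up p z ∧ up p z < h := by
  unfold up; split_ifs <;> constructor <;> omega

/-- An involution swapping `p` and `p + 1` preserves the complement. -/
lemma inv_ne {p : ℤ} {r : ℤ → ℤ} (hr : ∀ z, r (r z) = z) (hrp : r p = p + 1) {z : ℤ}
    (h1 : z ≠ p) (h2 : z ≠ p + 1) : r z ≠ p ∧ r z ≠ p + 1 := by
  have hr' : r (p + 1) = p := by rw [← hrp, hr]
  constructor
  · intro h
    apply h2
    rw [← hr z, h, hrp]
  · intro h
    apply h1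
    rw [← hr z, h, hr']

/-- Signs and contraction: `p ≥ 0`. -/
lemma hf_ctr_nonneg {l h p : ℤ} {a : ℤ → ℤ} (hN : NCI l h a) (hl : l ≤ p) (hh : p + 1 < h)
    (hp : 0 ≤ p) (hap : a p ≠ p + 1) (hF : HF a) : HF (ctr p a) := by
  have e1 : a (p + 1) ≠ p := by
    intro h1
    apply hap
    rw [← h1, hN.inv, h1]
  have e2 : a (p + 1) ≠ p + 1 := hN.ne _ (by omega) (by omega)
  have e3 : a p ≠ p := hN.ne _ (by omega) (by omega)
  have f1 := (hF p).1 hp
  have f2 := (hF (p + 1)).1 (by omega)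
  intro z
  have f3 := hF (up p z)
  unfold ctr
  have g : 0 ≤ z ↔ 0 ≤ up p z := by unfold up; split_ifs <;> omega
  rw [g, f3]
  by_cases c1 : a (up p z) = p
  · rw [if_pos c1, c1]
    unfold dn; split_ifs <;> omega
  · rw [if_neg c1]
    by_cases c2 : a (up p z) = p + 1
    · rw [if_pos c2, c2]
      unfold dn; split_ifs <;> omega
    · rw [if_neg c2]
      unfold dn; split_ifs <;> omega

/-- Signs and contraction: `q ≤ -2`, with a shift. -/
lemma hf_ctr_neg {l h q : ℤ} {a : ℤ → ℤ} (hN : NCI l h a) (hl : l ≤ q) (hh : q + 1 < h)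
    (hq : q ≤ -2) (haq : a q ≠ q + 1) (hF : HF a) : HF (fun z => ctr q a (z - 2) + 2) := by
  have e1 : a (q + 1) ≠ q := by
    intro h1
    apply haq
    rw [← h1, hN.inv, h1]
  have e2 : a (q + 1) ≠ q + 1 := hN.ne _ (by omega) (by omega)
  have e3 : a q ≠ q := hN.ne _ (by omega) (by omega)
  have f1 := hF q
  have f2 := hF (q + 1)
  intro z
  have f3 := hF (up q (z - 2))
  show 0 ≤ z ↔ 0 ≤ ctr q a (z - 2) + 2
  unfold ctr
  have g : 0 ≤ z ↔ 0 ≤ up q (z - 2) := by unfold up; split_ifs <;> omega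
  rw [g, f3]
  by_cases c1 : a (up q (z - 2)) = q
  · rw [if_pos c1, c1]
    unfold dn; split_ifs <;> omega
  · rw [if_neg c1]
    by_cases c2 : a (up q (z - 2)) = q + 1
    · rw [if_pos c2, c2]
      unfold dn; split_ifs <;> omega
    · rw [if_neg c2]
      unfold dn; split_ifs <;> omega

/-- The common part of the two cases. -/
theorem core (hCTR : CTR) (hCON : CON) (N i : ℕ) (a : ℤ → ℤ) (hS : SZ N a) (hi : i + 3 ≤ N)
    (p q : ℤ) (r : ℤ → ℤ) (hp0 : 0 ≤ p) (hpN : p + 1 < (N : ℤ)) (hq0 : q ≤ -2)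
    (hqN : -(N : ℤ) ≤ q) (hr : ∀ z, r (r z) = z)
    (hrI : ∀ z, -(N : ℤ) ≤ z → z < (N : ℤ) → -(N : ℤ) ≤ r z ∧ r z < (N : ℤ))
    (hrp : r p = p + 1) (hrq : dn p (r (up p q)) = q + 1)
    (hr2 : ∀ z, dn q (dn p (r (up p (up q (z - 2))))) + 2 = -1 - z)
    (hpsi : ∀ z, (cr z < i ∨ i + 3 ≤ cr z) → z ≠ p ∧ z ≠ p + 1 ∧ dn p z ≠ q ∧ dn p z ≠ q + 1 ∧
      dn q (dn p z) + 2 = psi i z)
    (hC : CI (-(N : ℤ)) N a r) :
    ∃ b, SZ (N - 2) b ∧ (HF a → HF b) ∧
      ∀ z, (cr z < i ∨ i + 3 ≤ cr z) → (cr (a z) < i ∨ i + 3 ≤ cr (a z)) →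
        b (psi i z) = psi i (a z) := by
  have hlp : -(N : ℤ) ≤ p := by omega
  have hap : a p ≠ p + 1 := ne_succ hS.nci.inv hr hlp hpN (by omega) hrp hC
  obtain ⟨n1, c1⟩ := hCTR _ _ p a hS.nci hlp hpN hap
  have C1 := hCON _ _ p a r hS.nci hlp hpN hap hrp hr hrI hC
  have hr1 : ∀ z, (fun z => dn p (r (up p z))) ((fun z => dn p (r (up p z))) z) = z := by
    intro z
    show dn p (r (up p (dn p (r (up p z))))) = z
    have h1 := inv_ne hr hrp (up_ne p z).1 (up_ne p z).2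
    rw [up_dn h1.1 h1.2, hr, dn_up]
  have hr1I : ∀ z, -(N : ℤ) ≤ z → z < (N : ℤ) - 2 →
      -(N : ℤ) ≤ (fun z => dn p (r (up p z))) z ∧ (fun z => dn p (r (up p z))) z < (N : ℤ) - 2 := by
    intro z hz1 hz2
    have h1 := inv_ne hr hrp (up_ne p z).1 (up_ne p z).2
    have h2 := up_range hlp hpN hz1 hz2
    have h3 := hrI _ h2.1 h2.2
    exact dn_range hlp hpN h1.1 h1.2 h3.1 h3.2
  have hqh : q + 1 < (N : ℤ) - 2 := by omega
  have haq : ctr p a q ≠ q + 1 := ne_succ n1.inv hr1 hqN hqh (by omega) hrq C1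
  obtain ⟨n2, c2⟩ := hCTR _ _ q (ctr p a) n1 hqN hqh haq
  have C2 := hCON _ _ q (ctr p a) _ n1 hqN hqh haq hrq hr1 hr1I C1
  have hcast : ((N - 2 : ℕ) : ℤ) = (N : ℤ) - 2 := by omega
  refine ⟨fun z => ctr q (ctr p a) (z - 2) + 2, ⟨⟨?_, ?_, ?_, ?_⟩, ?_⟩, ?_, ?_⟩
  · intro z
    show ctr q (ctr p a) (ctr q (ctr p a) (z - 2) + 2 - 2) + 2 = z
    rw [add_sub_cancel_right, n2.inv]
    omega
  · intro z hz
    show ctr q (ctr p a) (z - 2) + 2 = z
    rw [n2.out (z - 2) (by omega)]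
    omega
  · intro z hz1 hz2 h
    have h' : ctr q (ctr p a) (z - 2) + 2 = z := h
    exact n2.ne (z - 2) (by omega) (by omega) (by omega)
  · intro x y hxy hy
    have hy' : y < ctr q (ctr p a) (x - 2) + 2 := hy
    show ctr q (ctr p a) (y - 2) + 2 < ctr q (ctr p a) (x - 2) + 2
    have := n2.nc (x - 2) (y - 2) (by omega) (by omega)
    omega
  · intro x y hx1 hx2 hy1 hy2
    have h := C2 (x - 2) (y - 2) (by omega) (by omega) (by omega) (by omega)
    have key : ∀ s t, Conn (ctr q (ctr p a)) (fun z => dn q (dn p (r (up p (up q z))))) s t →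
        Conn (fun z => ctr q (ctr p a) (z - 2) + 2) (fun z => -1 - z) (s + 2) (t + 2) := by
      intro s t hst
      induction hst with
      | refl => exact Relation.ReflTransGen.refl
      | @tail b c _ hbc ih =>
        refine ih.tail ?_
        rcases hbc with h1 | h1
        · left
          show c + 2 = ctr q (ctr p a) (b + 2 - 2) + 2
          rw [add_sub_cancel_right, ← h1]
        · right
          show c + 2 = -1 - (b + 2)
          have h2 : c = dn q (dn p (r (up p (up q b)))) := h1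
          rw [← hr2 (b + 2), add_sub_cancel_right, ← h2]
    have := key _ _ h
    rwa [sub_add_cancel, sub_add_cancel] at this
  · intro hF
    exact hf_ctr_neg n1 hqN hqh hq0 haq (hf_ctr_nonneg hS.nci hlp hpN hp0 hap hF)
  · intro z hz haz
    obtain ⟨z1, z2, z3, z4, z5⟩ := hpsi z hz
    obtain ⟨w1, w2, w3, w4, w5⟩ := hpsi (a z) haz
    show ctr q (ctr p a) (psi i z - 2) + 2 = psi i (a z)
    have e1 := c1 z z1 z2 w1 w2
    have e2 := c2 (dn p z) z3 z4 (by rw [e1]; exact w3) (by rw [e1]; exact w4)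
    rw [← z5, ← w5, add_sub_cancel_right, e2, e1]

lemma up_spec (p z : ℤ) : (z < p ∧ up p z = z) ∨ (p ≤ z ∧ up p z = z + 2) := by
  unfold up; split_ifs with h
  · exact Or.inl ⟨h, rfl⟩
  · exact Or.inr ⟨by omega, rfl⟩

lemma dn_spec (p z : ℤ) : (z < p ∧ dn p z = z) ∨ (p ≤ z ∧ dn p z = z - 2) := by
  unfold dn; split_ifs with h
  · exact Or.inl ⟨h, rfl⟩
  · exact Or.inr ⟨by omega, rfl⟩

lemma r5_spec (i z : ℤ) (hi : 0 ≤ i) :
    (z = i + 1 ∧ r5 i z = i + 2) ∨ (z = i + 2 ∧ r5 i z = i + 1) ∨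
    (z = -1 - i ∧ r5 i z = -2 - i) ∨ (z = -2 - i ∧ r5 i z = -1 - i) ∨
    (z = i ∧ r5 i z = -3 - i) ∨ (z = -3 - i ∧ r5 i z = i) ∨
    (z ≠ i + 1 ∧ z ≠ i + 2 ∧ z ≠ -1 - i ∧ z ≠ -2 - i ∧ z ≠ i ∧ z ≠ -3 - i ∧
      r5 i z = -1 - z) := by
  unfold r5; split_ifs <;> omega

lemma r4_spec (i z : ℤ) (hi : 0 ≤ i) :
    (z = i ∧ r4 i z = i + 1) ∨ (z = i + 1 ∧ r4 i z = i) ∨
    (z = -2 - i ∧ r4 i z = -3 - i) ∨ (z = -3 - i ∧ r4 i z = -2 - i) ∨
    (z = i + 2 ∧ r4 i z = -1 - i) ∨ (z = -1 - i ∧ r4 i z = i + 2) ∨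
    (z ≠ i + 1 ∧ z ≠ i + 2 ∧ z ≠ -1 - i ∧ z ≠ -2 - i ∧ z ≠ i ∧ z ≠ -3 - i ∧
      r4 i z = -1 - z) := by
  unfold r4; split_ifs <;> omega

theorem goalSURG (hTRZ : Pool.Agent.Helper50.MB.TRZ) (hCTR : Pool.Agent.Helper50.MB.CTR)
    (hCON : Pool.Agent.Helper50.MB.CON) : Pool.Agent.Helper50.MB.SURG := by
  intro N i a hS hi
  rcases hTRZ N i a hS hi with hC | hC
  · refine core hCTR hCON N i a hS hi (i + 1) (-2 - i) (r5 i) (by omega) (by omega) (by omega)
      (by omega) ?_ ?_ ?_ ?_ ?_ ?_ hC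
    · intro z
      have h1 := r5_spec i z (by omega)
      have h2 := r5_spec i (r5 i z) (by omega)
      omega
    · intro z hz1 hz2
      have h1 := r5_spec i z (by omega)
      omega
    · have h1 := r5_spec i (i + 1) (by omega)
      omega
    · have h1 := up_spec (i + 1) (-2 - i)
      have h2 := r5_spec i (up (i + 1) (-2 - i)) (by omega)
      have h3 := dn_spec (i + 1) (r5 i (up (i + 1) (-2 - i)))
      omega
    · intro z
      have h1 := up_spec (-2 - i) (z - 2)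
      have h2 := up_spec (i + 1) (up (-2 - i) (z - 2))
      have h3 := r5_spec i (up (i + 1) (up (-2 - i) (z - 2))) (by omega)
      have h4 := dn_spec (i + 1) (r5 i (up (i + 1) (up (-2 - i) (z - 2))))
      have h5 := dn_spec (-2 - i) (dn (i + 1) (r5 i (up (i + 1) (up (-2 - i) (z - 2)))))
      omega
    · intro z hz
      have hz' : (z ≤ -4 - (i : ℤ)) ∨ (-(i : ℤ) ≤ z ∧ z < i) ∨ ((i : ℤ) + 3 ≤ z) := by
        unfold cr at hz
        split_ifs at hz <;> omega
      have h1 := dn_spec (i + 1) z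
      have h2 := dn_spec (-2 - i) (dn (i + 1) z)
      refine ⟨by omega, by omega, by omega, by omega, ?_⟩
      unfold psi
      split_ifs <;> omega
  · refine core hCTR hCON N i a hS hi i (-3 - i) (r4 i) (by omega) (by omega) (by omega)
      (by omega) ?_ ?_ ?_ ?_ ?_ ?_ hC
    · intro z
      have h1 := r4_spec i z (by omega)
      have h2 := r4_spec i (r4 i z) (by omega)
      omega
    · intro z hz1 hz2
      have h1 := r4_spec i z (by omega)
      omega
    · have h1 := r4_spec i i (by omega)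
      omega
    · have h1 := up_spec i (-3 - i)
      have h2 := r4_spec i (up i (-3 - i)) (by omega)
      have h3 := dn_spec i (r4 i (up i (-3 - i)))
      omega
    · intro z
      have h1 := up_spec (-3 - i) (z - 2)
      have h2 := up_spec i (up (-3 - i) (z - 2))
      have h3 := r4_spec i (up i (up (-3 - i) (z - 2))) (by omega)
      have h4 := dn_spec i (r4 i (up i (up (-3 - i) (z - 2))))
      have h5 := dn_spec (-3 - i) (dn i (r4 i (up i (up (-3 - i) (z - 2)))))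
      omega
    · intro z hz
      have hz' : (z ≤ -4 - (i : ℤ)) ∨ (-(i : ℤ) ≤ z ∧ z < i) ∨ ((i : ℤ) + 3 ≤ z) := by
        unfold cr at hz
        split_ifs at hz <;> omega
      have h1 := dn_spec i z
      have h2 := dn_spec (-3 - i) (dn i z)
      refine ⟨by omega, by omega, by omega, by omega, ?_⟩
      unfold psi
      split_ifs <;> omega

end Pool.Agent.Helper97.MB
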